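import Pool.Agent.Helper36.Sona.Defs

set_option autoImplicit false

/-!
# Hamiltonian cycles of grid graphs: the cyclic arrangement and the Mathlib definition agree
-/

namespace Pool.Agent.Helper6.Sona

open Pool.Agent.Helper36.Sona SimpleGraph

lemma Nb.symm {a b : ℤ × ℤ} (h : Nb a b) : Nb b a := by
  unfold Nb at *
  rcases h with h | h | h | h
  · right; left; rw [h]; ext <;> simp
  · left; rw [h]; ext <;> simp
  · right; right; right; rw [h]; ext <;> simp
  · right; right; left; rw [h]; ext <;> simp

lemma Nb.irrefl {a : ℤ × ℤ} (h : Nb a a) : False := by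
  unfold Nb at h
  simp only [Prod.ext_iff] at h
  omega

/-- The grid graph on `V`: lattice points at distance one are adjacent. -/
def gridGraph (V : Finset (ℤ × ℤ)) : SimpleGraph V where
  Adj a b := Nb a.1 b.1
  symm := ⟨fun _ _ h => Nb.symm h⟩
  loopless := ⟨fun _ h => Nb.irrefl h⟩

/-- a graph on at least three vertices is Hamiltonian iff it contains the cycle graph on as many
vertices as it has -/
lemma isHamiltonian_iff_contains {α : Type} [Fintype α] [DecidableEq α] (G : SimpleGraph α)
    (h3 : 3 ≤ Fintype.card α) :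
    G.IsHamiltonian ↔ cycleGraph (Fintype.card α) ⊑ G := by
  classical
  rw [cycleGraph_isContained_iff (by omega)]
  unfold SimpleGraph.IsHamiltonian
  constructor
  · intro h
    obtain ⟨a, p, hp⟩ := h (by omega)
    exact ⟨a, p, Walk.isHamiltonianCycle_iff_isCycle_and_length_eq.1 hp⟩
  · rintro ⟨a, p, hp⟩ -
    exact ⟨a, p, Walk.isHamiltonianCycle_iff_isCycle_and_length_eq.2 hp⟩

/-- **The two notions agree.** -/
theorem hasHamiltonianCycle_iff (V : Finset (ℤ × ℤ)) (hV : 3 ≤ V.card) :
    HasHamiltonianCycle V ↔ (gridGraph V).IsHamiltonian := by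
  classical
  have hcard : Fintype.card V = V.card := Fintype.card_coe V
  rw [isHamiltonian_iff_contains _ (by rw [hcard]; exact hV), hcard]
  unfold HasHamiltonianCycle
  obtain ⟨m, hm⟩ : ∃ m, V.card = m + 3 := ⟨V.card - 3, by omega⟩
  rw [hm]
  constructor
  · rintro ⟨f, hf, hfV, hnb⟩
    refine ⟨⟨⟨fun i : Fin (m + 3) => ⟨f i, hfV i⟩, ?_⟩, ?_⟩⟩
    · intro a b hab
      change Nb (f a) (f b)
      rw [cycleGraph_adj] at hab
      rcases hab with h | h
      · have h1 : a = b + 1 := sub_eq_iff_eq_add'.1 h
        rw [h1]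
        exact Nb.symm (hnb b)
      · have h1 : b = a + 1 := sub_eq_iff_eq_add'.1 h
        rw [h1]
        exact hnb a
    · intro a b hab
      have h1 : f a = f b := congrArg Subtype.val hab
      exact hf h1
  · rintro ⟨⟨g, hg⟩⟩
    refine ⟨fun i => (g i).1, ?_, fun i => (g i).2, ?_⟩
    · intro a b hab
      exact hg (Subtype.ext hab)
    · intro (i : Fin (m + 3))
      have h1 : (cycleGraph (m + 3)).Adj i (i + 1) := by
        rw [cycleGraph_adj]
        right
        exact add_sub_cancel_left i 1
      exact g.map_adj h1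

end Pool.Agent.Helper6.Sona
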