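import Pool.Agent.Helper36.Sona.Defs

set_option autoImplicit false

/-!
# Lower bound (core argument by helper95, adapted to the definitions of helper36)

A closed curve passing close to every point of the scaled set `V` and shorter than `K (|V| + 2/5)`
gives a Hamiltonian cycle of the grid graph on `V`; a sona map on the dots passes close to every
scaled point of `V`.
-/

namespace Pool.Agent.Helper6.Sona

open MeasureTheory Set
open Pool.Agent.Helper36.Sona
open scoped ENNReal

/-- the point of the plane with integer coordinates `v` -/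
noncomputable def pt (v : ℤ × ℤ) : ℂ := ⟨(v.1 : ℝ), (v.2 : ℝ)⟩

lemma norm_pt_sub_sq (a b : ℤ × ℤ) :
    ‖pt b - pt a‖ ^ 2 = (((b.1 - a.1) ^ 2 + (b.2 - a.2) ^ 2 : ℤ) : ℝ) := by
  rw [← Complex.normSq_eq_norm_sq, Complex.normSq_apply]
  simp [pt]
  ring

lemma one_le_dist {a b : ℤ × ℤ} (h : a ≠ b) : 1 ≤ ‖pt b - pt a‖ := by
  have h1 := norm_pt_sub_sq a b
  have h2 : (1 : ℤ) ≤ (b.1 - a.1) ^ 2 + (b.2 - a.2) ^ 2 := by
    by_contra hc
    push Not at hc
    have h3 : (b.1 - a.1) ^ 2 = 0 := by nlinarith [sq_nonneg (b.1 - a.1), sq_nonneg (b.2 - a.2)]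
    have h4 : (b.2 - a.2) ^ 2 = 0 := by nlinarith [sq_nonneg (b.1 - a.1), sq_nonneg (b.2 - a.2)]
    apply h
    have h5 := pow_eq_zero_iff (two_ne_zero) |>.1 h3
    have h6 := pow_eq_zero_iff (two_ne_zero) |>.1 h4
    ext <;> omega
  have h3 : (1 : ℝ) ≤ ‖pt b - pt a‖ ^ 2 := by
    rw [h1]; exact_mod_cast h2
  nlinarith [norm_nonneg (pt b - pt a)]

lemma far_of_not_nb {a b : ℤ × ℤ} (h : a ≠ b) (hn : ¬ Nb a b) : 707 / 500 ≤ ‖pt b - pt a‖ := by
  have h1 := norm_pt_sub_sq a b
  have h2 : (2 : ℤ) ≤ (b.1 - a.1) ^ 2 + (b.2 - a.2) ^ 2 := by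
    by_contra hc
    push Not at hc
    apply hn
    have hx : (b.1 - a.1) ^ 2 ≤ 1 := by nlinarith [sq_nonneg (b.1 - a.1), sq_nonneg (b.2 - a.2)]
    have hy : (b.2 - a.2) ^ 2 ≤ 1 := by nlinarith [sq_nonneg (b.1 - a.1), sq_nonneg (b.2 - a.2)]
    have hx' : |b.1 - a.1| ≤ 1 := by rwa [← sq_le_one_iff_abs_le_one]
    have hy' : |b.2 - a.2| ≤ 1 := by rwa [← sq_le_one_iff_abs_le_one]
    rw [abs_le] at hx' hy'
    have hxc : b.1 - a.1 = -1 ∨ b.1 - a.1 = 0 ∨ b.1 - a.1 = 1 := by omega
    have hyc : b.2 - a.2 = -1 ∨ b.2 - a.2 = 0 ∨ b.2 - a.2 = 1 := by omega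
    rcases hxc with hx1 | hx1 | hx1 <;> rcases hyc with hy1 | hy1 | hy1 <;>
      rw [hx1, hy1] at hc <;> norm_num at hc
    · exact Or.inr (Or.inl (by ext <;> simp <;> omega))
    · exact Or.inr (Or.inr (Or.inr (by ext <;> simp <;> omega)))
    · exact absurd (by ext <;> omega) h
    · exact Or.inr (Or.inr (Or.inl (by ext <;> simp <;> omega)))
    · exact Or.inl (by ext <;> simp <;> omega)
  have h3 : (2 : ℝ) ≤ ‖pt b - pt a‖ ^ 2 := by
    rw [h1]; exact_mod_cast h2
  nlinarith [norm_nonneg (pt b - pt a)]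

/-- Two points in different components of the complement of a set: the segment between them meets
the set. -/
lemma segment_meets {K : Set ℂ} {p q : ℂ}
    (hq : q ∉ connectedComponentIn Kᶜ p) : ∃ z ∈ K, z ∈ segment ℝ p q := by
  by_contra hc
  push Not at hc
  apply hq
  have hsub : segment ℝ p q ⊆ Kᶜ := fun z hz hzK => hc z hzK hz
  exact (convex_segment p q).isPreconnected.subset_connectedComponentIn
    (left_mem_segment ℝ p q) hsub (right_mem_segment ℝ p q)

lemma norm_sub_le_integral {γ : ℝ → ℂ} (hγ : ContDiff ℝ 1 γ) {s t : ℝ} (hst : s ≤ t) :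
    ‖γ t - γ s‖ ≤ ∫ x in s..t, ‖deriv γ x‖ := by
  have hd : Continuous (deriv γ) := hγ.continuous_deriv le_rfl
  have h1 : ∫ x in s..t, deriv γ x = γ t - γ s := by
    apply intervalIntegral.integral_deriv_eq_sub
    · intro x _
      exact (hγ.differentiable (by norm_num)) x
    · exact hd.intervalIntegrable _ _
  rw [← h1]
  exact intervalIntegral.norm_integral_le_integral_norm hst

/-- **Lower bound, core.** -/
theorem hamiltonian_of_short (V : Finset (ℤ × ℤ)) (hV : 3 ≤ V.card) {M δ : ℝ} (hM : 0 < M)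
    (hδ : 2 * V.card * δ ≤ M / 100) {γ : ℝ → ℂ} (hγ : ContDiff ℝ 1 γ)
    (hper : ∀ t, γ (t + 1) = γ t)
    (hnear : ∀ v ∈ V, ∃ t, ‖γ t - M * pt v‖ ≤ δ)
    (hlen : ∫ x in (0 : ℝ)..1, ‖deriv γ x‖ < M * (V.card + 2 / 5)) :
    HasHamiltonianCycle V := by
  classical
  set n := V.card with hn
  have hnpos : 0 < n := by omega
  have : NeZero n := ⟨by omega⟩
  have hper' : Function.Periodic γ 1 := hper
  -- times in [0,1)
  have hnear' : ∀ v : V, ∃ t ∈ Ico (0 : ℝ) 1, ‖γ t - M * pt v.1‖ ≤ δ := by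
    intro v
    obtain ⟨t, ht⟩ := hnear v.1 v.2
    refine ⟨Int.fract t, ⟨Int.fract_nonneg t, Int.fract_lt_one t⟩, ?_⟩
    have : γ (Int.fract t) = γ t := by
      have h := hper'.sub_zsmul_eq ⌊t⌋ (x := t)
      rw [Int.fract]
      simpa using h
    rwa [this]
  choose t ht01 htn using hnear'
  let e : Fin n ≃ V := V.equivFin.symm
  let σ := Tuple.sort (fun k => t (e k))
  have hmono : Monotone (fun k => t (e (σ k))) := Tuple.monotone_sort (fun k => t (e k))
  -- the sequences
  let v : Fin n → ℤ × ℤ := fun k => (e (σ k)).1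
  have hvinj : Function.Injective v := by
    intro a b hab
    exact σ.injective (e.injective (Subtype.ext hab))
  let τ : Fin n → ℝ := fun k => t (e (σ k))
  let z : Fin n := ⟨0, hnpos⟩
  let T : ℕ → ℝ := fun k => if h : k < n then τ ⟨k, h⟩ else τ z + 1
  let P : ℕ → ℤ × ℤ := fun k => if h : k < n then v ⟨k, h⟩ else v z
  have hT0 : T 0 = τ z := by simp only [T, hnpos, dif_pos]; rfl
  have hTn : T n = τ z + 1 := by simp [T]
  have hTle : ∀ k, k < n → T k ≤ T (k + 1) := by
    intro k hk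
    by_cases hk1 : k + 1 < n
    · simp only [T, hk, hk1, dif_pos]
      exact hmono (by simp [Fin.le_def])
    · simp only [T, hk, hk1, dif_pos, dif_neg, not_false_eq_true]
      have h1 : τ ⟨k, hk⟩ < 1 := (ht01 (e (σ ⟨k, hk⟩))).2
      have h2 : 0 ≤ τ z := (ht01 (e (σ z))).1
      linarith
  have hnearT : ∀ k, ‖γ (T k) - M * pt (P k)‖ ≤ δ := by
    intro k
    by_cases hk : k < n
    · simp only [T, P, hk, dif_pos]
      exact htn (e (σ ⟨k, hk⟩))
    · simp only [T, P, hk, dif_neg, not_false_eq_true]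
      rw [hper]
      exact htn (e (σ z))
  have hstep : ∀ k, k < n → M * ‖pt (P (k + 1)) - pt (P k)‖ ≤
      (∫ x in (T k)..(T (k + 1)), ‖deriv γ x‖) + 2 * δ := by
    intro k hk
    have h1 := norm_sub_le_integral hγ (hTle k hk)
    have h2 := hnearT k
    have h3 := hnearT (k + 1)
    have h4 : M * ‖pt (P (k + 1)) - pt (P k)‖ = ‖(M : ℂ) * pt (P (k + 1)) - M * pt (P k)‖ := by
      rw [← mul_sub, norm_mul, Complex.norm_real, Real.norm_of_nonneg hM.le]
    rw [h4]
    have h5 : (M : ℂ) * pt (P (k + 1)) - M * pt (P k) =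
        -(γ (T (k + 1)) - M * pt (P (k + 1))) + (γ (T (k + 1)) - γ (T k)) +
          (γ (T k) - M * pt (P k)) := by ring
    rw [h5]
    calc _ ≤ ‖-(γ (T (k + 1)) - M * pt (P (k + 1)))‖ + ‖γ (T (k + 1)) - γ (T k)‖ +
          ‖γ (T k) - M * pt (P k)‖ := norm_add₃_le
      _ ≤ δ + (∫ x in (T k)..(T (k + 1)), ‖deriv γ x‖) + δ := by
          rw [norm_neg]; gcongr
      _ = _ := by ring
  have hsum : M * ∑ k ∈ Finset.range n, ‖pt (P (k + 1)) - pt (P k)‖ ≤
      (∫ x in (0 : ℝ)..1, ‖deriv γ x‖) + 2 * n * δ := by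
    rw [Finset.mul_sum]
    calc _ ≤ ∑ k ∈ Finset.range n, ((∫ x in (T k)..(T (k + 1)), ‖deriv γ x‖) + 2 * δ) :=
          Finset.sum_le_sum fun k hk => hstep k (Finset.mem_range.1 hk)
      _ = (∫ x in (T 0)..(T n), ‖deriv γ x‖) + n * (2 * δ) := by
          rw [Finset.sum_add_distrib, intervalIntegral.sum_integral_adjacent_intervals]
          · simp
          · intro k _
            exact (hγ.continuous_deriv le_rfl).norm.intervalIntegrable _ _
      _ = (∫ x in (0 : ℝ)..1, ‖deriv γ x‖) + 2 * n * δ := by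
          have hp : Function.Periodic (fun x => ‖deriv γ x‖) 1 := by
            intro x
            have h1 : deriv γ (x + 1) = deriv γ x := by
              have h2 : (fun y => γ (y + 1)) = γ := funext hper
              rw [← deriv_comp_add_const, h2]
            simp only [h1]
          have h2 := hp.intervalIntegral_add_eq (τ z) 0
          rw [hT0, hTn, h2]
          simp only [zero_add]
          ring
  have hdist : ∀ k, k < n → P k ≠ P (k + 1) := by
    intro k hk
    by_cases hk1 : k + 1 < n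
    · simp only [P, hk, hk1, dif_pos]
      intro h
      have := hvinj h
      simp at this
    · simp only [P, hk, hk1, dif_pos, dif_neg, not_false_eq_true]
      intro h
      have := hvinj h
      simp only [z, Fin.mk.injEq] at this
      omega
  have hnb : ∀ k, k < n → Nb (P k) (P (k + 1)) := by
    intro k hk
    by_contra hc
    have h1 : (∑ j ∈ Finset.range n, (1 : ℝ)) + 207 / 500 ≤
        ∑ j ∈ Finset.range n, ‖pt (P (j + 1)) - pt (P j)‖ := by
      rw [← Finset.add_sum_erase _ _ (Finset.mem_range.2 hk),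
        ← Finset.add_sum_erase _ (fun j => ‖pt (P (j + 1)) - pt (P j)‖) (Finset.mem_range.2 hk)]
      have h2 := far_of_not_nb (hdist k hk) hc
      have h3 : ∑ j ∈ (Finset.range n).erase k, (1 : ℝ) ≤
          ∑ j ∈ (Finset.range n).erase k, ‖pt (P (j + 1)) - pt (P j)‖ :=
        Finset.sum_le_sum fun j hj =>
          one_le_dist (hdist j (Finset.mem_range.1 (Finset.mem_of_mem_erase hj)))
      linarith
    rw [Finset.sum_const, Finset.card_range, nsmul_eq_mul, mul_one] at h1
    have h4 : M * ((n : ℝ) + 207 / 500) ≤ M * ∑ j ∈ Finset.range n, ‖pt (P (j + 1)) - pt (P j)‖ :=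
      mul_le_mul_of_nonneg_left h1 hM.le
    nlinarith
  refine ⟨fun k => v ⟨k.val, ZMod.val_lt k⟩, ?_, ?_, ?_⟩
  · intro a b hab
    have := hvinj hab
    simp only [Fin.mk.injEq] at this
    exact ZMod.val_injective n this
  · intro k
    exact (e (σ ⟨k.val, ZMod.val_lt k⟩)).2
  · intro k
    have hk : k.val < n := ZMod.val_lt k
    have h1 := hnb k.val hk
    have h2 : P k.val = v ⟨k.val, ZMod.val_lt k⟩ := by simp only [P, hk, dif_pos]
    have h3 : P (k.val + 1) = v ⟨(k + 1).val, ZMod.val_lt (k + 1)⟩ := by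
      have h4 : (k + 1).val = (k.val + 1) % n := by
        rw [ZMod.val_add]
        congr 1
        rw [ZMod.val_one'' (by omega)]
      by_cases hk1 : k.val + 1 < n
      · simp only [P, hk1, dif_pos]
        congr 1
        simp only [Fin.mk.injEq]
        rw [h4, Nat.mod_eq_of_lt hk1]
      · have h5 : k.val + 1 = n := by have := ZMod.val_lt k; omega
        simp only [P, hk1, dif_neg, not_false_eq_true, z]
        congr 1
        simp only [Fin.mk.injEq]
        rw [h4, h5, Nat.mod_self]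
    rw [h2, h3] at h1
    exact h1

/-! ### a sona map separates its dots -/

/-- every dot lies in some bounded face -/
lemma exists_face {r : ℕ∞} {P : Finset ℂ} {γ : ℝ → ℂ} (h : IsSonaMapOn r P γ) {p : ℂ}
    (hp : p ∈ P) : ∃ C ∈ boundedFaces γ, p ∈ C := by
  classical
  choose! f hf using fun C (hC : C ∈ boundedFaces γ) => (h.one_dot C hC).exists
  have hinj : Set.InjOn f (boundedFaces γ) := by
    intro C hC C' hC' heq
    have h1 := (hf C hC).2
    have h2 := (hf C' hC').2
    rw [← heq] at h2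
    obtain ⟨⟨x, hx, rfl⟩, -⟩ := hC
    obtain ⟨⟨y, hy, rfl⟩, -⟩ := hC'
    rw [connectedComponentIn_eq h1, connectedComponentIn_eq h2]
  have himg : (f '' boundedFaces γ).encard = (P : Set ℂ).encard := by
    rw [hinj.encard_image, h.card_faces, Set.encard_coe_eq_coe_finsetCard]
  have hsub : f '' boundedFaces γ ⊆ (P : Set ℂ) := by
    rintro _ ⟨C, hC, rfl⟩
    exact (hf C hC).1
  have heq : f '' boundedFaces γ = (P : Set ℂ) :=
    (P.finite_toSet).eq_of_subset_of_encard_le' hsub himg.ge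
  have hp' : p ∈ f '' boundedFaces γ := by rw [heq]; exact hp
  obtain ⟨C, hC, rfl⟩ := hp'
  exact ⟨C, hC, (hf C hC).2⟩

/-- **The curve meets the segment between two dots.** -/
lemma hits {r : ℕ∞} {P : Finset ℂ} {γ : ℝ → ℂ} (h : IsSonaMapOn r P γ) {p p' : ℂ}
    (hp : p ∈ P) (hp' : p' ∈ P) (hne : p ≠ p') : ∃ t, γ t ∈ segment ℝ p p' := by
  obtain ⟨C, hC, hpC⟩ := exists_face h hp
  have hCp : C = connectedComponentIn (Set.range γ)ᶜ p := by
    obtain ⟨⟨x, hx, rfl⟩, -⟩ := id hC
    exact connectedComponentIn_eq hpC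
  have hp'C : p' ∉ connectedComponentIn (Set.range γ)ᶜ p := by
    intro hc
    rw [← hCp] at hc
    exact hne ((h.one_dot C hC).unique ⟨hp, hpC⟩ ⟨hp', hc⟩)
  obtain ⟨z, ⟨t, rfl⟩, hz⟩ := segment_meets hp'C
  exact ⟨t, hz⟩

/-- a sona map on the dots passes close to every scaled point of `V` -/
lemma near {r : ℕ∞} {V : Finset (ℤ × ℤ)} {v₀ : ℤ × ℤ} {γ : ℝ → ℂ}
    (h : IsSonaMapOn r (dots V v₀) γ) {v : ℤ × ℤ} (hv : v ∈ V) :
    ∃ t, ‖γ t - ((scale V : ℝ) : ℂ) * pt v‖ ≤ 4 := by
  have h1 : ctr (scale V * v.1 - 4, scale V * v.2) ∈ dots V v₀ := by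
    unfold dots dotCells
    exact Finset.mem_image_of_mem _ (Finset.mem_union_left _ (Finset.mem_union_left _
      (Finset.mem_image_of_mem _ hv)))
  have h2 : ctr (scale V * v.1, scale V * v.2) ∈ dots V v₀ := by
    unfold dots dotCells
    exact Finset.mem_image_of_mem _ (Finset.mem_union_left _ (Finset.mem_union_right _
      (Finset.mem_image_of_mem _ hv)))
  have hne : ctr (scale V * v.1 - 4, scale V * v.2) ≠ ctr (scale V * v.1, scale V * v.2) := by
    unfold ctr
    rw [Ne, Complex.mk.injEq]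
    rintro ⟨h3, -⟩
    push_cast at h3
    linarith
  obtain ⟨t, ht⟩ := hits h h1 h2 hne
  refine ⟨t, ?_⟩
  have hball : segment ℝ (ctr (scale V * v.1 - 4, scale V * v.2))
      (ctr (scale V * v.1, scale V * v.2)) ⊆
      Metric.closedBall (((scale V : ℝ) : ℂ) * pt v) 4 := by
    apply (convex_closedBall _ _).segment_subset
    · rw [Metric.mem_closedBall, dist_eq_norm]
      have h5 : ctr (scale V * v.1 - 4, scale V * v.2) - ((scale V : ℝ) : ℂ) * pt v =
          ⟨-7 / 2, 1 / 2⟩ := by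
        apply Complex.ext <;> simp [ctr, pt] <;> ring
      rw [h5]
      have h6 : ‖(⟨-7 / 2, 1 / 2⟩ : ℂ)‖ ^ 2 = 25 / 2 := by
        rw [← Complex.normSq_eq_norm_sq, Complex.normSq_apply]
        norm_num
      nlinarith [norm_nonneg (⟨-7 / 2, 1 / 2⟩ : ℂ)]
    · rw [Metric.mem_closedBall, dist_eq_norm]
      have h5 : ctr (scale V * v.1, scale V * v.2) - ((scale V : ℝ) : ℂ) * pt v =
          ⟨1 / 2, 1 / 2⟩ := by
        (apply Complex.ext; all_goals simp [ctr, pt])
      rw [h5]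
      have h6 : ‖(⟨1 / 2, 1 / 2⟩ : ℂ)‖ ^ 2 = 1 / 2 := by
        rw [← Complex.normSq_eq_norm_sq, Complex.normSq_apply]
        norm_num
      nlinarith [norm_nonneg (⟨1 / 2, 1 / 2⟩ : ℂ)]
  have := hball ht
  rwa [Metric.mem_closedBall, dist_eq_norm] at this

/-- **Lower bound.**  A sona map on the dots that is shorter than `K (|V| + 4/10)` gives a
Hamiltonian cycle. -/
theorem lower {r : ℕ∞} (hr : 1 ≤ r) {V : Finset (ℤ × ℤ)} (hV : 3 ≤ V.card) {v₀ : ℤ × ℤ}
    {γ : ℝ → ℂ} (h : IsSonaMapOn r (dots V v₀) γ)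
    (hlen : curveLength γ < (scale V : ℝ) * (V.card + 4 / 10)) : HasHamiltonianCycle V := by
  have hn : (3 : ℝ) ≤ V.card := by exact_mod_cast hV
  have hK : (scale V : ℝ) = 1000 * V.card := by unfold scale; push_cast; ring
  refine hamiltonian_of_short V hV (M := (scale V : ℝ)) (δ := 4) ?_ ?_ (γ := γ) ?_ h.periodic
    (fun v hv => near h hv) ?_
  · rw [hK]; linarith
  · rw [hK]; linarith
  · exact h.smooth.of_le (by exact_mod_cast hr)
  · have : curveLength γ = ∫ x in (0 : ℝ)..1, ‖deriv γ x‖ := rfl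
    rw [← this]
    norm_num at hlen ⊢
    linarith

/-- **Lower bound for `L`.** -/
theorem lower_L {r : ℕ∞} (hr : 1 ≤ r) {V : Finset (ℤ × ℤ)} (hV : 3 ≤ V.card) (v₀ : ℤ × ℤ)
    (hno : ¬ HasHamiltonianCycle V) :
    ENNReal.ofReal ((scale V : ℝ) * (V.card + 4 / 10)) ≤ L r (dots V v₀) := by
  unfold L
  refine le_iInf fun γ => le_iInf fun hγ => ENNReal.ofReal_le_ofReal ?_
  by_contra hc
  push Not at hc
  exact hno (lower hr hV hγ hc)

end Pool.Agent.Helper6.Sona
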